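import Pool.Agent.Y896.LT.INT

/-! Project LT, job LT-CLS (helper896). -/

set_option autoImplicit false
set_option linter.unusedSectionVars false

namespace Pool.Agent.Y896.LT.CLS

open MvPolynomial Pool.Agent.Y166.GM Pool.Agent.Y166.SM Pool.Agent.Y198.MC Pool.Agent.Y166.LT
open FF (Place)

section
variable {k K : Type} [Field k] [Field K] [Algebra k K]

/-- The coordinates of `X` as polynomials in the coordinates of the chart. -/
noncomputable def xP (k : Type) [Field k] (r : ℕ) : Co (r + 2) → MvPolynomial (Ch r) k :=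
  ptX (U0 X) (V0 X) (mulc ![1, X (.inr 0)] ![1, X (.inr 1), X (.inr 2)])

theorem aeval_U0 {r : ℕ} (Y : Ch r → K) (i : Fin (r + 2)) :
    aeval Y (U0 (X : Ch r → MvPolynomial (Ch r) k) i) = U0 Y i := by
  refine Fin.cases ?_ (fun i => ?_) i
  · simp [U0]
  · refine Fin.cases ?_ (fun i => ?_) i
    · simp [U0]
    · simp [U0]

theorem aeval_V0 {r : ℕ} (Y : Ch r → K) (i : Fin (r + 2)) :
    aeval Y (V0 (X : Ch r → MvPolynomial (Ch r) k) i) = V0 Y i := by
  refine Fin.cases ?_ (fun i => ?_) i
  · simp [V0]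
  · refine Fin.cases ?_ (fun i => ?_) i
    · simp [V0]
    · simp [V0]

theorem aeval_xP {r : ℕ} (Y : Ch r → K) (j : Co (r + 2)) : aeval Y (xP k r j) = xOf Y j := by
  unfold xP xOf ptX wdg cub mulc
  simp only [map_mul, map_add, map_sub, aeval_U0, aeval_V0]
  simp

/-- Forms in the coordinates of a multiple of a point. -/
theorem aeval_smul {τ : Type} {m : ℕ} {A : MvPolynomial τ k} (hA : A.IsHomogeneous m) (c : K)
    (z : τ → K) : aeval (fun j => c * z j) A = c ^ m * aeval z A := by
  rw [aeval_def, aeval_def, eval₂_eq, eval₂_eq, Finset.mul_sum]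
  refine Finset.sum_congr rfl fun d hd => ?_
  have hd' : d.degree = m := by
    have := hA (mem_support_iff.1 hd)
    rw [← this]
    simp [Finsupp.degree, Finsupp.weight_apply, Finsupp.sum]
  have e : ∏ i ∈ d.support, (c * z i) ^ d i = c ^ m * ∏ i ∈ d.support, z i ^ d i := by
    simp only [mul_pow]
    rw [Finset.prod_mul_distrib, Finset.prod_pow_eq_pow_sum]
    congr 2
  rw [e]
  ring

theorem reg_sum (P : Place k K) {ι : Type} (s : Finset ι) (f : ι → K)
    (h : ∀ i ∈ s, P.Reg (f i)) : P.Reg (∑ i ∈ s, f i) := by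
  classical
  induction s using Finset.induction_on with
  | empty => rw [Finset.sum_empty]; exact P.reg_zero
  | insert a s ha ih =>
    rw [Finset.sum_insert ha]
    exact P.reg_add (h a (Finset.mem_insert_self _ _))
      (ih fun i hi => h i (Finset.mem_insert_of_mem hi))

theorem reg_pow (P : Place k K) {f : K} (h : P.Reg f) (n : ℕ) : P.Reg (f ^ n) := by
  induction n with
  | zero => rw [pow_zero]; exact P.reg_one
  | succ n ih => rw [pow_succ]; exact P.reg_mul ih h

theorem reg_aeval (P : Place k K) {σ : Type} (t : σ → K) (ht : ∀ i, P.Reg (t i))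
    (F : MvPolynomial σ k) : P.Reg (aeval t F) := by
  induction F using MvPolynomial.induction_on with
  | C a => rw [aeval_C]; exact P.reg_const a
  | add p q hp hq => rw [map_add]; exact P.reg_add hp hq
  | mul_X p i hp => rw [map_mul, aeval_X]; exact P.reg_mul hp (ht i)

end

theorem core : S_CENT → S_CLS := by
  intro hcent k K _ _ _ _ r Y x hC v hU hv
  have hYreg : ∀ j, v.Reg (Y j) := Pool.Agent.Y896.LT.INT.done k K r Y x hC v hv
  have h3K : (3 : K) ≠ 0 := by
    have : CharZero K := charZero_of_injective_algebraMap (algebraMap k K).injective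
    norm_num
  have h3o : v.ord (3 : K) = 0 := by
    have := v.ord_const (c := (3 : k)) (by norm_num)
    rwa [map_ofNat] at this
  obtain ⟨c, hc, hx⟩ := hC.eq
  obtain ⟨hval, y, hy, hyi⟩ := hU
  have hcard : Fintype.card (Ch r) ≤ (2 * r + 3 - 1) + 1 := by
    simp [Fintype.card_sum, Fintype.card_prod]
    omega
  have hAB : ∀ i, ∃ A B : MvPolynomial (Ch r) k, aeval Y B ≠ 0 ∧ v.ord (aeval Y B) = 0 ∧
      y i = aeval Y A / aeval Y B := by
    intro i
    obtain ⟨m, A, B, hA, hB, hB0, hyAB, hCm⟩ := hy i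
    have key : ∀ F : MvPolynomial (Co (r + 2)) k, F.IsHomogeneous m →
        aeval x F = c ^ m * aeval Y (aeval (xP k r) F) := by
      intro F hF
      have e1 : aeval Y (aeval (xP k r) F) = aeval (xOf Y) F := by
        rw [← AlgHom.comp_apply, comp_aeval]
        congr 2
        funext j
        exact aeval_xP Y j
      rw [hx, aeval_smul hF, e1]
    have hBne : aeval Y (aeval (xP k r) B) ≠ 0 := by
      intro h0
      apply hB0
      rw [key B hB, h0, mul_zero]
    refine ⟨aeval (xP k r) A, aeval (xP k r) B, hBne, ?_, ?_⟩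
    · have h1 : 0 ≤ v.ord (aeval Y (aeval (xP k r) B)) :=
        (v.reg_iff hBne).1 (reg_aeval v Y hYreg _)
      have h2 := hCm (X (j0 r) ^ m) (by
        have := (isHomogeneous_X k (j0 r)).pow m
        rwa [one_mul] at this)
      have hne : aeval x (X (j0 r) ^ m : MvPolynomial (Co (r + 2)) k) / aeval x B =
          3 ^ m / aeval Y (aeval (xP k r) B) := by
        rw [map_pow, aeval_X, hx]
        rw [← hx, key B hB]
        have : (fun j => c * xOf Y j) (j0 r) = c * 3 := by
          simp only [Pool.Agent.Y896.LT.INT.xOf_j0]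
        rw [hx, this, mul_pow, mul_div_mul_left _ _ (pow_ne_zero _ hc)]
      rw [hne] at h2
      have h3 := (v.reg_iff (div_ne_zero (pow_ne_zero _ h3K) hBne)).1 h2
      rw [v.ord_div (pow_ne_zero _ h3K) hBne, v.ord_pow, h3o, mul_zero] at h3
      omega
    · rw [hyAB, key A hA, key B hB, mul_div_mul_left _ _ (pow_ne_zero _ hc)]
  rcases hcent k K (Ch r) Y v (2 * r + 3 - 1) hC.ind hYreg hcard y hAB hyi with h | ⟨h, hirr, hpos, hnd⟩
  · exfalso
    obtain ⟨t, ht0, ht1⟩ := v.surj
    have htm : t ∈ IntermediateField.adjoin k (Set.range Y) := by rw [hC.top]; trivial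
    obtain ⟨A, B, hAB'⟩ := (IntermediateField.mem_adjoin_range_iff k Y t).1 htm
    have hA0 : aeval Y A ≠ 0 := by
      intro h0
      rw [hAB', h0, zero_div] at ht0
      exact ht0 rfl
    have hB0 : aeval Y B ≠ 0 := by
      intro h0
      rw [hAB', h0, div_zero] at ht0
      exact ht0 rfl
    rw [hAB', v.ord_div hA0 hB0, h A, h B] at ht1
    norm_num at ht1
  · refine ⟨h, hirr, ?_, hnd⟩
    have hinj : ∀ F : MvPolynomial (Ch r) k, F ≠ 0 → aeval Y F ≠ 0 := by
      intro F hF h0
      apply hF
      have := hC.ind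
      rw [algebraicIndependent_iff] at this
      exact this F h0
    have hdvd : ∀ F : MvPolynomial (Ch r) k, v.ord (aeval Y h) ∣ v.ord (aeval Y F) := by
      intro F
      by_cases hF : F = 0
      · rw [hF, map_zero, v.ord_zero]
        exact dvd_zero _
      · obtain ⟨n, G, hG, rfl⟩ := WfDvdMonoid.max_power_factor hF hirr
        have hG0 : G ≠ 0 := by
          rintro rfl
          exact hG (dvd_zero _)
        rw [map_mul, map_pow, v.ord_mul (pow_ne_zero _ (hinj h hirr.ne_zero)) (hinj G hG0),
          v.ord_pow, hnd G hG, add_zero]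
        exact dvd_mul_left _ _
    obtain ⟨t, ht0, ht1⟩ := v.surj
    have htm : t ∈ IntermediateField.adjoin k (Set.range Y) := by rw [hC.top]; trivial
    obtain ⟨A, B, hAB'⟩ := (IntermediateField.mem_adjoin_range_iff k Y t).1 htm
    have hA0 : aeval Y A ≠ 0 := by
      intro h0
      rw [hAB', h0, zero_div] at ht0
      exact ht0 rfl
    have hB0 : aeval Y B ≠ 0 := by
      intro h0
      rw [hAB', h0, div_zero] at ht0
      exact ht0 rfl
    rw [hAB', v.ord_div hA0 hB0] at ht1
    have h1 : v.ord (aeval Y h) ∣ 1 := by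
      rw [← ht1]
      exact dvd_sub (hdvd A) (hdvd B)
    exact Int.eq_one_of_dvd_one hpos.le h1

theorem done : S_CENT → S_INT → S_CLS := fun h _ => core h

end Pool.Agent.Y896.LT.CLS
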