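import Pool.Agent.Y166.LT.Stm

/-! Project LT, job LT-INT (helper896). -/

set_option autoImplicit false
set_option linter.unusedSectionVars false

namespace Pool.Agent.Y896.LT.INT

open MvPolynomial Pool.Agent.Y166.GM Pool.Agent.Y166.SM Pool.Agent.Y198.MC Pool.Agent.Y166.LT
open FF (Place)

section
variable {K : Type} [Field K] {r : ℕ} (Y : Ch r → K)

theorem xOf_j0 : xOf Y (j0 r) = 3 := by
  simp [xOf, j0, ptX, wdg, cub, mulc, U0, V0]

theorem xOf_inl (i : Fin r) (j : Fin 2) : xOf Y (Pool.Agent.Y198.MC.rrX r (.inl (i, j))) = 3 * Y (.inl (i, j)) := by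
  fin_cases j
  · simp [xOf, Pool.Agent.Y198.MC.rrX, ptX, wdg, cub, mulc, U0, V0]
    ring
  · simp [xOf, Pool.Agent.Y198.MC.rrX, ptX, wdg, cub, mulc, U0, V0]
    ring

theorem xOf_r0 : xOf Y (Pool.Agent.Y198.MC.rrX r (.inr 0)) = Y (.inr 0) + 2 * Y (.inr 1) := by
  simp [xOf, Pool.Agent.Y198.MC.rrX, ptX, wdg, cub, mulc, U0, V0]

theorem xOf_r1 : xOf Y (Pool.Agent.Y198.MC.rrX r (.inr 1)) = 2 * Y (.inr 0) * Y (.inr 1) + Y (.inr 2) := by
  simp [xOf, Pool.Agent.Y198.MC.rrX, ptX, wdg, cub, mulc, U0, V0]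

theorem xOf_r2 : xOf Y (Pool.Agent.Y198.MC.rrX r (.inr 2)) = 3 * Y (.inr 0) * Y (.inr 2) := by
  simp [xOf, Pool.Agent.Y198.MC.rrX, ptX, wdg, cub, mulc, U0, V0]

end

section
variable {k K : Type} [Field k] [Field K] [Algebra k K] (P : Place k K)

theorem reg_nat (n : ℕ) : P.Reg (n : K) := by
  have := P.reg_const (n : k)
  rwa [map_natCast] at this

theorem reg_inv_nat (n : ℕ) : P.Reg ((n : K)⁻¹) := by
  have := P.reg_const ((n : k)⁻¹)
  rwa [map_inv₀, map_natCast] at this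

end

theorem done : S_INT := by
  intro k K _ _ _ _ r Y x hC v hv
  have h3K : (3 : K) ≠ 0 := by
    have : CharZero K := charZero_of_injective_algebraMap (algebraMap k K).injective
    norm_num
  have h2K : (2 : K) ≠ 0 := by
    have : CharZero K := charZero_of_injective_algebraMap (algebraMap k K).injective
    norm_num
  obtain ⟨c, hc, rfl⟩ := hC.eq
  have h3 : ∀ j, v.Reg (xOf Y j / 3) := by
    intro j
    have := hv.2 j
    have e : c * xOf Y j / (c * xOf Y (j0 r)) = xOf Y j / 3 := by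
      rw [xOf_j0, mul_div_mul_left _ _ hc]
    rwa [e] at this
  have r3 : v.Reg (3 : K) := by
    have := reg_nat v 3
    exact_mod_cast this
  have r2 : v.Reg (2 : K) := by
    have := reg_nat v 2
    exact_mod_cast this
  have ri2 : v.Reg ((2 : K)⁻¹) := by
    have := reg_inv_nat v 2
    exact_mod_cast this
  have hx : ∀ j, v.Reg (xOf Y j) := by
    intro j
    have := v.reg_mul r3 (h3 j)
    rwa [mul_div_cancel₀ _ h3K] at this
  have hsub : ∀ {f g : K}, v.Reg f → v.Reg g → v.Reg (f - g) := by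
    intro f g hf hg
    rw [sub_eq_add_neg]
    exact v.reg_add hf (v.reg_neg hg)
  have c1 := hx (Pool.Agent.Y198.MC.rrX r (.inr 0))
  have c2 := hx (Pool.Agent.Y198.MC.rrX r (.inr 1))
  have c3 := h3 (Pool.Agent.Y198.MC.rrX r (.inr 2))
  rw [xOf_r0] at c1
  rw [xOf_r1] at c2
  rw [xOf_r2] at c3
  have c3' : v.Reg (Y (.inr 0) * Y (.inr 2)) := by
    have e : 3 * Y (.inr 0) * Y (.inr 2) / 3 = Y (.inr 0) * Y (.inr 2) := by
      field_simp
    rwa [e] at c3
  have hxi : v.Reg (Y (.inr 0)) := by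
    by_contra hn
    have h0 : Y (.inr 0) ≠ 0 := by
      intro h0
      exact hn (Or.inl h0)
    have hneg : v.ord (Y (.inr 0)) < 0 := by
      by_contra hc'
      exact hn (Or.inr (not_lt.1 hc'))
    have hinv : v.Reg ((Y (.inr 0))⁻¹) := by
      right
      rw [v.ord_inv]
      omega
    apply hn
    have e : Y (.inr 0) = (Y (.inr 0) + 2 * Y (.inr 1)) -
        (2 * Y (.inr 0) * Y (.inr 1) + Y (.inr 2)) * (Y (.inr 0))⁻¹ +
        (Y (.inr 0) * Y (.inr 2)) * ((Y (.inr 0))⁻¹ * (Y (.inr 0))⁻¹) := by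
      field_simp
      ring
    rw [e]
    exact v.reg_add (hsub c1 (v.reg_mul c2 hinv)) (v.reg_mul c3' (v.reg_mul hinv hinv))
  have hq1 : v.Reg (Y (.inr 1)) := by
    have e : Y (.inr 1) = (2 : K)⁻¹ * ((Y (.inr 0) + 2 * Y (.inr 1)) - Y (.inr 0)) := by
      field_simp
      ring
    rw [e]
    exact v.reg_mul ri2 (hsub c1 hxi)
  have hq2 : v.Reg (Y (.inr 2)) := by
    have e : Y (.inr 2) = (2 * Y (.inr 0) * Y (.inr 1) + Y (.inr 2)) -
        2 * Y (.inr 0) * Y (.inr 1) := by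
      ring
    rw [e]
    exact hsub c2 (v.reg_mul (v.reg_mul r2 hxi) hq1)
  rintro (⟨i, j⟩ | j)
  · have := h3 (Pool.Agent.Y198.MC.rrX r (.inl (i, j)))
    rwa [xOf_inl, mul_div_cancel_left₀ _ h3K] at this
  · fin_cases j
    · exact hxi
    · exact hq1
    · exact hq2

end Pool.Agent.Y896.LT.INT
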